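import Pool.Agent.helper22.DL.FIN2

/-! # MP_4caea3_gt: the energy density of the Hitchin section is not maximal in its Hitchin fibre (`n = 3`)

The surface is `w² = 1 - ζ⁸` (genus three), `η = dζ/w`, `s = (i t a²/3) ζ η`, `q = t² a² (1 - a² ζ²) η²`, `q₂ = 3s² + q`,
`q₃ = -2s(s² - q)`, `B = (K^(1/2) ⊕ K^(-1/2), [[s,q],[1,s]]) ⊕ (O, -2s)`, the point is `(ζ,w) = (0,1)`.
The harmonic metrics of both Higgs bundles are constructed as well. -/

namespace Pool.Agent.Results.MP_4caea3_gt.EnergyNotMaximal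

open Pool.Agent.DL

/-- There are a closed Riemann surface `X` of genus at least two, a point of the Hitchin section of `SL(3)` over `(q₂, q₃)` and a
polystable `SL(3,ℂ)`-Higgs bundle `B` in the same Hitchin fibre, not isomorphic to it, both having a harmonic metric, and a point
`x` where the energy density of the harmonic map of `B` is strictly larger than the one of the Hitchin section, for every
conformal metric and all harmonic metrics. -/
theorem result : ∃ (X : Type) (_ : TopologicalSpace X) (_ : ChartedSpace ℂ X), ClosedRS X ∧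
    ∃ (C : Cov X) (q₂ q₃ : Fam X) (B : Higgs X 3), C.Valid ∧ IsDif Set.univ 2 q₂ ∧ IsDif Set.univ 3 q₃ ∧
    (hitchin3 C q₂ q₃).Valid ∧ (hitchin3 C q₂ q₃).IsSL ∧
    B.Valid ∧ B.IsSL ∧ Polystable B ∧ SameFibre B (hitchin3 C q₂ q₃) ∧ ¬ IsoHiggs B (hitchin3 C q₂ q₃) ∧
    (∃ H, SLHarm B H) ∧ (∃ H', SLHarm (hitchin3 C q₂ q₃) H') ∧
    ∃ x : X, ∀ ρ, IsConf ρ → ∀ H H', SLHarm B H → SLHarm (hitchin3 C q₂ q₃) H' →
      ∀ i k, x ∈ B.C.U i → x ∈ C.U k → energyAt ρ (hitchin3 C q₂ q₃) H' k x < energyAt ρ B H i x :=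
  FIN2_main

end Pool.Agent.Results.MP_4caea3_gt.EnergyNotMaximal
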